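import Pool.Agent.Helper41_NG.Noe
import Pool.Agent.Helper89_NR.Ngr

/-!
# Finite subgroups of groups whose integral group ring is Noetherian

If the integral group ring of `G` is Noetherian then the orders of the finite subgroups of `G`
are bounded.
-/

set_option autoImplicit false

universe u

namespace Pool.Agent.Results.MP_c602ad_al.BoundedTorsion

/-- Main theorem: the orders of the finite subgroups are bounded. -/
theorem result {G : Type u} [Group G] (hN : IsNoetherianRing (MonoidAlgebra ℤ G)) :
    ∃ N : ℕ, ∀ H : Subgroup G, (H : Set G).Finite → Nat.card H ≤ N :=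
  Pool.Agent.NGR.H89.bto (Pool.Agent.NGR.H89.qno hN) (Pool.Agent.NG.noe hN)

end Pool.Agent.Results.MP_c602ad_al.BoundedTorsion
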