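import Pool.Agent.Helper12_NGR.Cnr
import Pool.Agent.Helper21_NGR.Cda
import Pool.Agent.Helper41_NG.Noe
import Pool.Agent.Helper50_NGR.Cdz
import Pool.Agent.Helper63_NGR.Fgs
import Pool.Agent.Helper67_NGR.Cdf
import Pool.Agent.Helper81_NGR.Wma
import Pool.Agent.Helper90_NGR.Dcp

/-!
# Left-orderable groups whose integral group ring is Noetherian

Let `G` be a group whose integral group ring is Noetherian and let `L` be a finite index subgroup
of `G` that admits a left-invariant linear order.

* Every subgroup of `L` is finitely generated and, unless trivial, maps onto `ℤ`.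
* If moreover `L` has finite cohomological dimension, or if the completely prime ideals of the
  integral group ring of `L` satisfy the descending chain condition, then `G` is virtually
  polycyclic.
-/

set_option autoImplicit false

universe u

namespace Pool.Agent.Results.MP_c602ad_al.LeftOrderable

open Pool.Agent.NGR

/-- Restriction of a left order to a subgroup. -/
theorem lo_sub {G : Type u} [Group G] (h : LeftOrderable G) (H : Subgroup G) :
    LeftOrderable H := by
  obtain ⟨P, hP⟩ := h
  refine ⟨{x | (x : G) ∈ P}, ⟨?_, ?_, ?_⟩⟩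
  · intro a ha b hb
    exact hP.mul _ ha _ hb
  · exact hP.one
  · intro a ha
    have h1 : (a : G) ≠ 1 := by
      intro h
      exact ha (Subtype.ext h)
    exact hP.tot _ h1

/-- Finitely generated groups are countable. -/
theorem countable_of_fg {G : Type u} [Group G] (h : Group.FG G) : Countable G := by
  obtain ⟨S, hS, hfin⟩ := Group.fg_iff.1 h
  have : Countable S := hfin.countable.to_subtype
  have hsurj : Function.Surjective (FreeGroup.lift (fun x : S => (x : G))) := by
    rw [← MonoidHom.range_eq_top, FreeGroup.range_lift_eq_closure, Subtype.range_coe, hS]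
  exact hsurj.countable

/-- A left-orderable group with Noetherian integral group ring is fully indicable. -/
theorem full {G : Type u} [Group G] (hN : IsNoetherianRing (MonoidAlgebra ℤ G))
    (hLO : LeftOrderable G) : FullyIndicable G := by
  intro H
  obtain ⟨hfg, hNH⟩ := H63.fgs hN H
  refine ⟨hfg, fun hH => ?_⟩
  have hH1 : Group.FG H := (Group.fg_iff_subgroup_fg H).2 hfg
  have : Nontrivial H := (Subgroup.nontrivial_iff_ne_bot H).2 hH
  have : Countable H := countable_of_fg hH1
  obtain ⟨P, hP⟩ := H81.wma (NG.noe hNH) (lo_sub hLO H)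
  exact H12.con P hP

/-- Main theorem. -/
theorem result {G : Type u} [Group G] (hN : IsNoetherianRing (MonoidAlgebra ℤ G))
    (L : Subgroup G) (hL : L.index ≠ 0) (hLO : LeftOrderable L) :
    (∀ H : Subgroup L, H.FG ∧ (H ≠ ⊥ → ∃ f : H →* Multiplicative ℤ, Function.Surjective f)) ∧
    ((FiniteCD L ∨ DCCPrimes (MonoidAlgebra ℤ L)) →
      ∃ H : Subgroup G, H.index ≠ 0 ∧ Group.IsSolvable H ∧ ∀ K : Subgroup H, K.FG) := by
  have hNL : IsNoetherianRing (MonoidAlgebra ℤ L) := (H63.fgs hN L).2
  have hI : FullyIndicable L := full hNL hLO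
  refine ⟨hI, fun h => ⟨L, hL, ?_, fun K => (hI K).1⟩⟩
  rcases h with h | h
  · exact H21.cda H67.cdf H50.cdz H63.fgs hNL hI h
  · exact H90.dcp hI h

end Pool.Agent.Results.MP_c602ad_al.LeftOrderable
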