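import Mathlib
import Pool.Agent.Helper1_NGM.All
import Pool.Agent.Helper91_NGM.OGW
import Pool.Agent.Helper91_NGM.FRW

/-!
# Noetherian integral group rings: faithful actions with sets of small boundary
-/

set_option autoImplicit false

open scoped Classical Pointwise
open Filter

universe u v

namespace Pool.Agent.Results.MP_c602ad_al.SmallBoundaries

/-- The boundary `b A`: the points of the finite set `A` which some element of `S` moves out
of `A`. -/
noncomputable def bd {G : Type u} [Group G] {X : Type v} [MulAction G X] (S : Finset G)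
    (A : Finset X) : Finset X :=
  A.filter fun x => ∃ s ∈ S, s • x ∉ A

/-- `A` is nonempty and `|b A| ^ D ≤ e |A| ^ (D - 1)`. -/
def Ip {G : Type u} [Group G] {X : Type v} [MulAction G X] (S : Finset G) (D : ℕ) (e : ℝ)
    (A : Finset X) : Prop :=
  A.Nonempty ∧ ((bd S A).card : ℝ) ^ D ≤ e * (A.card : ℝ) ^ (D - 1)

/-- W1: for every `e > 0` there are `d > 0` and a finite `W ⊆ G` such that for every nonempty
finite set `F` of points with `|b F| ≤ d |F|` some nonempty `A ⊆ W F` has
`|b A| ^ D ≤ e |A| ^ (D - 1)`. -/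
def W1 {G : Type u} [Group G] (S : Finset G) (X : Type v) [MulAction G X] (D : ℕ) : Prop :=
  ∀ e : ℝ, 0 < e → ∃ d : ℝ, 0 < d ∧ ∃ W : Finset G, ∀ F : Finset X, F.Nonempty →
    ((bd S F).card : ℝ) ≤ d * F.card → ∃ A : Finset X, A ⊆ W • F ∧ Ip S D e A

/-- W2: for every `e > 0` there is a finite `W ⊆ G` such that for every point `x` some nonempty
`A ⊆ W x` has `|b A| ^ D ≤ e |A| ^ (D - 1)`. -/
def W2 {G : Type u} [Group G] (S : Finset G) (X : Type v) [MulAction G X] (D : ℕ) : Prop :=
  ∀ e : ℝ, 0 < e → ∃ W : Finset G, ∀ x : X, ∃ A : Finset X, A ⊆ W • {x} ∧ Ip S D e A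

/-- Polynomially hyperfinite: for some `C` and infinitely many `r`, every finite set `F` of points
contains a set `F'` with `r |F \ F'| ≤ |F|` which splits into parts of size at most `C r ^ D` (the
parts are numbered by the function `c`) such that no element of `S` moves a point of `F'` to a
point of another part. -/
def Hyp {G : Type u} [Group G] (S : Finset G) (X : Type v) [MulAction G X] (D : ℕ) : Prop :=
  ∃ C : ℕ, ∃ᶠ r : ℕ in atTop, ∀ F : Finset X, ∃ F' : Finset X, F' ⊆ F ∧
    r * (F \ F').card ≤ F.card ∧ ∃ c : X → ℕ, (∀ x ∈ F', ∀ s ∈ S, s • x ∈ F' → c (s • x) = c x) ∧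
      ∀ j : ℕ, (F'.filter fun x => c x = j).card ≤ C * r ^ D

/-- Polynomial growth of the orbits: for some `C` and infinitely many `n`, `|S ^ n x| ≤ C n ^ D`
for all `x`. -/
def Orb {G : Type u} [Group G] (S : Finset G) (X : Type v) [MulAction G X] (D : ℕ) : Prop :=
  ∃ C : ℕ, ∃ᶠ n : ℕ in atTop, ∀ x : X, (S ^ n • ({x} : Finset X)).card ≤ C * n ^ D

/-- Almost polycyclic: there is a solvable subgroup of finite index all of whose subgroups are
finitely generated. -/
def AlmostPolycyclic (G : Type u) [Group G] : Prop :=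
  ∃ H : Subgroup G, H.index ≠ 0 ∧ IsSolvable H ∧ ∀ K : Subgroup H, K.FG

/-- There is a finitely generated abelian subgroup of finite index. -/
def VirtAbelian (G : Type u) [Group G] : Prop :=
  ∃ H : Subgroup G, H.index ≠ 0 ∧ H.FG ∧ ∀ a ∈ H, ∀ b ∈ H, a * b = b * a

/-- THEOREM. Let `G` be a group with a finite generating set `S = S⁻¹` containing `1`, acting
faithfully on a set `X`.  Then `G` is almost polycyclic, and virtually abelian if `D ≤ 2`, in each
of the following cases:
* `ℤ[G]` is Noetherian and W1 holds with exponent `D`,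
* all subgroups of `G` are finitely generated and W2 holds with exponent `D`,
* `ℤ[G]` is Noetherian and the action is polynomially hyperfinite with exponent `D - 1`,
* `ℤ[G]` is Noetherian or only all subgroups of `G` are finitely generated, and the orbits grow
  polynomially with exponent `D - 1`, uniformly, along a sequence of radii. -/
theorem result {G : Type u} [Group G] (S : Finset G) (hone : (1 : G) ∈ S)
    (hinv : ∀ s ∈ S, s⁻¹ ∈ S) (hgen : Subgroup.closure (S : Set G) = ⊤)
    {X : Type v} [MulAction G X] [FaithfulSMul G X] (D : ℕ)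
    (h : (IsNoetherianRing (MonoidAlgebra ℤ G) ∧ W1 S X D) ∨
      ((∀ H : Subgroup G, H.FG) ∧ W2 S X D) ∨
      (IsNoetherianRing (MonoidAlgebra ℤ G) ∧ Hyp S X (D - 1)) ∨
      ((IsNoetherianRing (MonoidAlgebra ℤ G) ∨ ∀ H : Subgroup G, H.FG) ∧ Orb S X (D - 1))) :
    AlmostPolycyclic G ∧ (D ≤ 2 → VirtAbelian G) := by
  have hS : NGM.GenSet S := ⟨hone, hinv, hgen⟩
  have main : ∀ D : ℕ, (IsNoetherianRing (MonoidAlgebra ℤ G) ∧ W1 S X D ∨
      (∀ H : Subgroup G, H.FG) ∧ W2 S X D) →
      AlmostPolycyclic G ∧ (D ≤ 2 → VirtAbelian G) := fun D h => NGM.H1.mai' G X S D hS h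
  rcases h with h | h | ⟨hG, C, h⟩ | ⟨hG, C, h⟩
  · exact main D (Or.inl h)
  · exact main D (Or.inr h)
  · have h2 := main (D - 1 + 1) (Or.inl ⟨hG, NGM.H91.frw G X S C (D - 1) h⟩)
    exact ⟨h2.1, fun hD => h2.2 (by omega)⟩
  · have hfg : ∀ H : Subgroup G, H.FG := by
      rcases hG with hG | hG
      · exact fun H => (NGR.H63.fgs hG H).1
      · exact hG
    obtain ⟨o1, o2⟩ := NGM.H91.ogw G X S C hone
    refine ⟨(main (2 * (D - 1) + 1) (Or.inr ⟨hfg, o1 (D - 1) h⟩)).1, fun hD => ?_⟩
    have h1 : NGM.OG S X C 1 := by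
      refine (h.and_eventually (eventually_ge_atTop 1)).mono fun n hn x => ?_
      refine (hn.1 x).trans (Nat.mul_le_mul_left C ?_)
      exact Nat.pow_le_pow_right hn.2 (by omega)
    exact (main 2 (Or.inr ⟨hfg, o2 h1⟩)).2 le_rfl

end Pool.Agent.Results.MP_c602ad_al.SmallBoundaries
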