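import Mathlib
import Pool.Agent.Helper1_NGM.All
import Pool.Agent.Helper19_NGM.TRE
import Pool.Agent.Helper47_NGM.Bau

/-!
# Noetherian integral group rings of groups of automorphisms of rooted trees

The boundary of the rooted tree is the set of infinite words `x 0, x 1, ..` over the finite
alphabets `α 0, α 1, ..`.
-/

set_option autoImplicit false

open scoped Classical Pointwise

universe u v

namespace Pool.Agent.Results.MP_c602ad_al.TreeGroups

/-- `G` acts by automorphisms of the rooted tree: the first `m` letters of `g x` depend only on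
the first `m` letters of `x`. -/
def ActsOnTree (G : Type u) [Group G] (α : ℕ → Type v) [MulAction G (∀ i, α i)] : Prop :=
  ∀ (g : G) (m : ℕ) (x y : ∀ i, α i), (∀ i < m, x i = y i) → ∀ i < m, (g • x) i = (g • y) i

/-- `G` is transitive on the words of length `m`, for every `m`. -/
def LevelTransitive (G : Type u) [Group G] (α : ℕ → Type v) [MulAction G (∀ i, α i)] : Prop :=
  ∀ (m : ℕ) (x y : ∀ i, α i), ∃ g : G, ∀ i < m, (g • x) i = y i

/-- The words `v` of length `m` at which the section of `g` is not trivial: `g` changes a letter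
of index at least `m` of some infinite word which begins with `v`. -/
def active {G : Type u} [Group G] (α : ℕ → Type v) [MulAction G (∀ i, α i)] (g : G) (m : ℕ) :
    Set (∀ i : Fin m, α i) :=
  {v | ∃ x : ∀ i, α i, (∀ i : Fin m, x i = v i) ∧ ∃ i, m ≤ i ∧ (g • x) i ≠ x i}

/-- Almost polycyclic: there is a solvable subgroup of finite index all of whose subgroups are
finitely generated. -/
def AlmostPolycyclic (G : Type u) [Group G] : Prop :=
  ∃ H : Subgroup G, H.index ≠ 0 ∧ IsSolvable H ∧ ∀ K : Subgroup H, K.FG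

/-- There is a finitely generated abelian subgroup of finite index. -/
def VirtAbelian (G : Type u) [Group G] : Prop :=
  ∃ H : Subgroup G, H.index ≠ 0 ∧ H.FG ∧ ∀ a ∈ H, ∀ b ∈ H, a * b = b * a

/-- THEOREM. Let `G` act faithfully on the infinite words over the finite alphabets
`α 0, α 1, ..`.  Then `G` is almost polycyclic, and virtually abelian if `D ≤ 2`, in each of the
following two cases.
* `G` acts by automorphisms of the rooted tree, transitively on every level, and `G` has a finite
  generating set `S = S⁻¹` containing `1` such that, for some `D ≥ 1`, for every `e > 0` there is a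
  level `m` with `|active s m| ^ D ≤ e N ^ (D - 1)` for all `s ∈ S`, `N` the number of words of
  length `m`; and `ℤ[G]` is Noetherian, or only all subgroups of `G` are finitely generated.
* `ℤ[G]` is Noetherian, the alphabets have at most `d` letters, and every `g ∈ G` has at most `C`
  active words on every level, with `C` depending only on `g`. -/
theorem result {G : Type u} [Group G] {α : ℕ → Type v} [∀ i, Fintype (α i)]
    [∀ i, Nonempty (α i)] [MulAction G (∀ i, α i)] [FaithfulSMul G (∀ i, α i)] (D : ℕ)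
    (h : (ActsOnTree G α ∧ LevelTransitive G α ∧ 1 ≤ D ∧
        (∃ S : Finset G, (1 : G) ∈ S ∧ (∀ s ∈ S, s⁻¹ ∈ S) ∧ Subgroup.closure (S : Set G) = ⊤ ∧
          ∀ e : ℝ, 0 < e → ∃ m : ℕ, ∀ s ∈ S, ((active α s m).ncard : ℝ) ^ D ≤
            e * (Nat.card (∀ i : Fin m, α i) : ℝ) ^ (D - 1)) ∧
        (IsNoetherianRing (MonoidAlgebra ℤ G) ∨ ∀ H : Subgroup G, H.FG)) ∨
      (IsNoetherianRing (MonoidAlgebra ℤ G) ∧ (∃ d : ℕ, ∀ i, Fintype.card (α i) ≤ d) ∧
        ∀ g : G, ∃ C : ℕ, ∀ m : ℕ, (active α g m).ncard ≤ C)) :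
    AlmostPolycyclic G ∧ (D ≤ 2 → VirtAbelian G) := by
  rcases h with ⟨htree, hlev, hD, ⟨S, hone, hinv, hgen, hact⟩, hG⟩ | ⟨hG, ⟨d, hd⟩, hact⟩
  · have hfg : ∀ H : Subgroup G, H.FG := by
      rcases hG with hG | hG
      · exact fun H => (NGR.H63.fgs hG H).1
      · exact hG
    exact NGM.H1.mai' G (∀ i, α i) S D ⟨hone, hinv, hgen⟩
      (Or.inr ⟨hfg, NGM.H19.tre G α S D ⟨hone, hinv, hgen⟩ htree hlev hD hact⟩)
  · obtain ⟨S, hS⟩ := NGM.H19.exists_genSet ((NGR.H63.fgs hG ⊤).1)
    choose C hC using hact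
    have hb := NGM.H47.bau G α S (∑ s ∈ S, C s) d hS.inv hd fun s hs m =>
      (hC s m).trans (Finset.single_le_sum (f := C) (fun _ _ => Nat.zero_le _) hs)
    have h2 := NGM.H1.mai' G (∀ i, α i) S 2 hS (Or.inl ⟨hG, hb⟩)
    exact ⟨h2.1, fun _ => h2.2 le_rfl⟩

end Pool.Agent.Results.MP_c602ad_al.TreeGroups
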